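import Pool.Agent.Lib.MP_b2ebfc_lc.Iface

/-!
# Module COLORP: correctness of the two-colouring by propagation
-/

set_option autoImplicit false

namespace Pool.Agent.Lib.MP_b2ebfc_lc.H78

open Finset

section

variable {n : ℕ} (G : SimpleGraph (Fin n)) [DecidableRel G.Adj]

/-- The entries of the adjacency matrix. -/
theorem adj_val (l : ℕ) (v v' : Fin n) :
    (initSt n l G).m 0 ((v : ℤ) * n + (v' : ℤ)) = if G.Adj v v' then 1 else 0 := by
  simp only [initSt, if_true]
  by_cases h : G.Adj v v'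
  · rw [if_pos ⟨v, v', rfl, h⟩, if_pos h]
  · rw [if_neg h, if_neg]
    rintro ⟨u, u', he, ha⟩
    have h1 : (v : ℕ) * n + v' = u * n + u' := by exact_mod_cast he
    have h2 : (v : ℕ) = u := by
      rcases lt_trichotomy (v : ℕ) u with h3 | h3 | h3
      · exfalso
        have h4 : ((v : ℕ) + 1) * n ≤ u * n := Nat.mul_le_mul_right n h3
        have h5 := v'.2
        rw [Nat.add_mul, Nat.one_mul] at h4
        omega
      · exact h3
      · exfalso
        have h4 : ((u : ℕ) + 1) * n ≤ v * n := Nat.mul_le_mul_right n h3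
        have h5 := u'.2
        rw [Nat.add_mul, Nat.one_mul] at h4
        omega
    have h3 : (v' : ℕ) = u' := by
      rw [h2] at h1
      exact Nat.add_left_cancel h1
    apply h
    have h4 : v = u := Fin.ext h2
    have h5 : v' = u' := Fin.ext h3
    rw [h4, h5]
    exact ha

/-- Good states: `n`, the adjacency matrix, and a colouring of some vertices that extends to a proper
colouring. -/
structure Good (l : ℕ) (s : St) : Prop where
  r0 : s.r 0 = n
  m0 : s.m 0 = (initSt n l G).m 0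
  val : ∀ v : Fin n, s.m 1 (v : ℕ) = 0 ∨ s.m 1 (v : ℕ) = 1 ∨ s.m 1 (v : ℕ) = 2
  ext : ∃ χ : Fin n → Bool, (∀ v v', G.Adj v v' → χ v ≠ χ v') ∧
    ∀ v : Fin n, s.m 1 (v : ℕ) ≠ 0 → s.m 1 (v : ℕ) = if χ v then 1 else 2

/-- The set of coloured vertices is closed. -/
def Closed (s : St) : Prop :=
  ∀ v u : Fin n, G.Adj v u → s.m 1 (u : ℕ) ≠ 0 → s.m 1 (v : ℕ) ≠ 0

theorem Good.setR {G : SimpleGraph (Fin n)} [DecidableRel G.Adj] {l : ℕ} {s : St}
    (h : Good G l s) {i : ℕ} (hi : i ≠ 0) (x : ℤ) : Good G l (s.setR i x) := by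
  refine ⟨?_, h.m0, h.val, h.ext⟩
  rw [St.setR_r, if_neg (Ne.symm hi)]
  exact h.r0

theorem sum_pos_iff {l : ℕ} {s : St} (hs : Good G l s) (v : Fin n) (c : ℤ) :
    (0 < ∑ k ∈ range n, s.m 0 ((v : ℤ) * n + (k : ℤ)) *
      (if s.m 1 (k : ℤ) = c then (1 : ℤ) else 0)) ↔
      ∃ u : Fin n, G.Adj v u ∧ s.m 1 (u : ℕ) = c := by
  rw [Finset.sum_range (fun k : ℕ => s.m 0 ((v : ℤ) * n + (k : ℤ)) *
      (if s.m 1 (k : ℤ) = c then (1 : ℤ) else 0))]
  have h1 : ∀ u : Fin n, s.m 0 ((v : ℤ) * n + (((u : ℕ) : ℤ))) *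
      (if s.m 1 ((u : ℕ) : ℤ) = c then (1 : ℤ) else 0) =
      if G.Adj v u ∧ s.m 1 (u : ℕ) = c then 1 else 0 := by
    intro u
    rw [hs.m0, adj_val G l v u]
    by_cases h2 : G.Adj v u <;> by_cases h3 : s.m 1 ((u : ℕ) : ℤ) = c <;> simp [h2, h3]
  rw [Finset.sum_congr rfl (fun u _ => h1 u)]
  constructor
  · intro h
    by_contra hcon
    push Not at hcon
    have h2 : ∑ u : Fin n, (if G.Adj v u ∧ s.m 1 (u : ℕ) = c then (1 : ℤ) else 0) = 0 := by
      apply Finset.sum_eq_zero
      intro u _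
      rw [if_neg]
      rintro ⟨h3, h4⟩
      exact hcon u h3 h4
    omega
  · rintro ⟨u, h3, h4⟩
    have h2 : (if G.Adj v u ∧ s.m 1 (u : ℕ) = c then (1 : ℤ) else 0) ≤
        ∑ u : Fin n, (if G.Adj v u ∧ s.m 1 (u : ℕ) = c then (1 : ℤ) else 0) := by
      apply Finset.single_le_sum (f := fun u : Fin n =>
        (if G.Adj v u ∧ s.m 1 (u : ℕ) = c then (1 : ℤ) else 0))
      · intro i _
        show (0 : ℤ) ≤ if G.Adj v i ∧ s.m 1 (i : ℕ) = c then (1 : ℤ) else 0
        split_ifs <;> norm_num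
      · exact Finset.mem_univ u
    rw [if_pos ⟨h3, h4⟩] at h2
    omega

theorem colE_eval {l : ℕ} {s : St} (hs : Good G l s) (v : Fin n) (hv : s.m 1 (v : ℕ) = 0)
    (x : ℤ) :
    (x = colE.eval (s.setR 32 (v : ℕ))) →
      ((∃ u : Fin n, G.Adj v u ∧ s.m 1 (u : ℕ) = 1) ∧ x = 2) ∨
      ((∃ u : Fin n, G.Adj v u ∧ s.m 1 (u : ℕ) = 2) ∧ x = 1) ∨
      ((∀ u : Fin n, G.Adj v u → s.m 1 (u : ℕ) = 0) ∧ x = 0) := by
  intro hx
  have e1 := sum_pos_iff G hs v 1
  have e2 := sum_pos_iff G hs v 2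
  simp only [colE, Expr.eval, eval_eqE, St.setR_r, St.setR_m] at hx
  norm_num at hx
  rw [hs.r0, Int.toNat_natCast, hv] at hx
  simp only [mul_ite, mul_one, mul_zero] at e1 e2
  rw [if_neg (lt_irrefl (0 : ℤ))] at hx
  by_cases h1 : ∃ u : Fin n, G.Adj v u ∧ s.m 1 (u : ℕ) = 1
  · rw [if_pos (e1.2 h1)] at hx
    exact Or.inl ⟨h1, hx⟩
  · rw [if_neg (fun h => h1 (e1.1 h))] at hx
    by_cases h2 : ∃ u : Fin n, G.Adj v u ∧ s.m 1 (u : ℕ) = 2
    · rw [if_pos (e2.2 h2)] at hx
      exact Or.inr (Or.inl ⟨h2, hx⟩)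
    · rw [if_neg (fun h => h2 (e2.1 h))] at hx
      refine Or.inr (Or.inr ⟨fun u hu => ?_, hx⟩)
      rcases hs.val u with h3 | h3 | h3
      · exact h3
      · exact absurd ⟨u, hu, h3⟩ h1
      · exact absurd ⟨u, hu, h3⟩ h2

theorem colE_eval' {l : ℕ} {s : St} (hs : Good G l s) (v : Fin n) (hv : s.m 1 (v : ℕ) ≠ 0) :
    colE.eval (s.setR 32 (v : ℕ)) = s.m 1 (v : ℕ) := by
  have h : 0 < s.m 1 ((v : ℕ) : ℤ) := by
    rcases hs.val v with h3 | h3 | h3
    · exact absurd h3 hv
    · rw [h3]; norm_num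
    · rw [h3]; norm_num
  have e : colE.eval (s.setR 32 (v : ℕ)) = if 0 < s.m 1 ((v : ℕ) : ℤ) then s.m 1 ((v : ℕ) : ℤ)
      else (Expr.cond (.const 0) (.sum 33 (.reg 0) (.mul (.arr 0 (.add (.mul (.reg 32) (.reg 0))
        (.reg 33))) (eqE (.arr 1 (.reg 33)) (.const 1) (.const 1) (.const 0)))) (.const 2)
      (.cond (.const 0) (.sum 33 (.reg 0)
        (.mul (.arr 0 (.add (.mul (.reg 32) (.reg 0)) (.reg 33)))
        (eqE (.arr 1 (.reg 33)) (.const 2) (.const 1) (.const 0)))) (.const 1)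
          (.const 0))).eval (s.setR 32 (v : ℕ)) := by
    unfold colE
    simp only [Expr.eval, St.setR_r, St.setR_m, if_true]
  rw [e, if_pos h]

/-- Colours only get added. -/
def Ext (n : ℕ) (s s' : St) : Prop := ∀ v : Fin n, s.m 1 (v : ℕ) ≠ 0 →
  s'.m 1 (v : ℕ) = s.m 1 (v : ℕ)

theorem Ext.trans {s s' s'' : St} (h : Ext n s s') (h' : Ext n s' s'') : Ext n s s'' := by
  intro v hv
  have h1 := h v hv
  rw [← h1]
  exact h' v (by rw [h1]; exact hv)

theorem small_mod {w : ℕ} (hw : 2 ≤ w) {x : ℤ} (h : x = 0 ∨ x = 1 ∨ x = 2) : x % 2 ^ w = x := by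
  have h1 : (4 : ℤ) ≤ 2 ^ w := by
    calc (4 : ℤ) = 2 ^ 2 := by norm_num
      _ ≤ 2 ^ w := pow_le_pow_right₀ (by norm_num) hw
  apply Int.emod_eq_of_lt
  · rcases h with h | h | h <;> omega
  · rcases h with h | h | h <;> omega

/-- One step of the innermost loop. -/
theorem step {w l : ℕ} (hw : 2 ≤ w) {s : St} (hs : Good G l s) (v : Fin n) :
    let s' := (Prog.put 1 (.reg 32) colE).run w (s.setR 32 (v : ℕ))
    Good G l s' ∧ Ext n s s' ∧ (Closed G s → ∀ u : Fin n, s'.m 1 (u : ℕ) = s.m 1 (u : ℕ)) ∧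
      ((∃ u : Fin n, G.Adj v u ∧ s.m 1 (u : ℕ) ≠ 0) → s'.m 1 (v : ℕ) ≠ 0) := by
  intro s'
  obtain ⟨x, hx⟩ : ∃ x, x = colE.eval (s.setR 32 (v : ℕ)) := ⟨_, rfl⟩
  have hm1 : ∀ k : ℤ, s'.m 1 k = if k = (v : ℕ) then x % 2 ^ w else s.m 1 k := by
    intro k
    have : s' = (s.setR 32 (v : ℕ)).setM 1 ((v : ℕ) : ℤ) (x % 2 ^ w) := by
      show (s.setR 32 (v : ℕ)).setM 1 ((Expr.reg 32).eval (s.setR 32 (v : ℕ)))
        (colE.eval (s.setR 32 (v : ℕ)) % 2 ^ w) = _
      rw [← hx]
      simp only [Expr.eval, St.setR_r, if_true]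
    rw [this]
    simp only [St.setM_m, if_true, St.setR_m, Function.update_apply]
  have hm1' : ∀ u : Fin n, s'.m 1 (u : ℕ) = if u = v then x % 2 ^ w else s.m 1 (u : ℕ) := by
    intro u
    rw [hm1]
    by_cases h : u = v
    · rw [if_pos h, if_pos (by rw [h])]
    · rw [if_neg h, if_neg]
      intro h2
      exact h (Fin.ext (by exact_mod_cast h2))
  have hr0 : s'.r 0 = n := by
    show (s.setR 32 (v : ℕ)).r 0 = n
    rw [St.setR_r, if_neg (by norm_num)]
    exact hs.r0
  have hm0 : s'.m 0 = (initSt n l G).m 0 := by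
    show ((s.setR 32 (v : ℕ)).setM 1 ((Expr.reg 32).eval (s.setR 32 (v : ℕ)))
        (colE.eval (s.setR 32 (v : ℕ)) % 2 ^ w)).m 0 = _
    rw [St.setM_m, if_neg (by norm_num), St.setR_m]
    exact hs.m0
  by_cases hv : s.m 1 (v : ℕ) = 0
  · rcases colE_eval G hs v hv x hx with ⟨h1, h2⟩ | ⟨h1, h2⟩ | ⟨h1, h2⟩
    · rw [h2, small_mod hw (Or.inr (Or.inr rfl))] at hm1'
      obtain ⟨u0, hu0, hu1⟩ := h1
      obtain ⟨χ, hχ1, hχ2⟩ := hs.ext
      refine ⟨⟨hr0, hm0, ?_, χ, hχ1, ?_⟩, ?_, ?_, ?_⟩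
      · intro u
        rw [hm1' u]
        split_ifs
        · exact Or.inr (Or.inr rfl)
        · exact hs.val u
      · intro u hu
        rw [hm1' u] at hu ⊢
        split_ifs with h3 h4 h4
        · exfalso
          have h5 := hχ2 u0 (by rw [hu1]; norm_num)
          rw [hu1] at h5
          have h6 : χ u0 = true := by
            by_contra h7
            rw [if_neg h7] at h5
            norm_num at h5
          exact hχ1 v u0 hu0 (by rw [← h3, h4, h6])
        · rfl
        · rw [if_neg h3] at hu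
          rw [hχ2 u hu, if_pos h4]
        · rw [if_neg h3] at hu
          rw [hχ2 u hu, if_neg h4]
      · intro u hu
        rw [hm1' u, if_neg]
        rintro rfl
        exact hu hv
      · intro hcl
        exact absurd hv (hcl v u0 hu0 (by rw [hu1]; norm_num))
      · intro _
        rw [hm1' v, if_pos rfl]
        norm_num
    · rw [h2, small_mod hw (Or.inr (Or.inl rfl))] at hm1'
      obtain ⟨u0, hu0, hu1⟩ := h1
      obtain ⟨χ, hχ1, hχ2⟩ := hs.ext
      refine ⟨⟨hr0, hm0, ?_, χ, hχ1, ?_⟩, ?_, ?_, ?_⟩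
      · intro u
        rw [hm1' u]
        split_ifs
        · exact Or.inr (Or.inl rfl)
        · exact hs.val u
      · intro u hu
        rw [hm1' u] at hu ⊢
        split_ifs with h3 h4 h4
        · rfl
        · exfalso
          have h5 := hχ2 u0 (by rw [hu1]; norm_num)
          rw [hu1] at h5
          have h6 : χ u0 = false := by
            by_contra h7
            have h8 : χ u0 = true := by
              cases h9 : χ u0
              · exact absurd h9 h7
              · rfl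
            rw [if_pos h8] at h5
            norm_num at h5
          have h7 : χ v = false := by
            cases h9 : χ v
            · rfl
            · rw [h3] at h4
              exact absurd h9 h4
          exact hχ1 v u0 hu0 (by rw [h7, h6])
        · rw [if_neg h3] at hu
          rw [hχ2 u hu, if_pos h4]
        · rw [if_neg h3] at hu
          rw [hχ2 u hu, if_neg h4]
      · intro u hu
        rw [hm1' u, if_neg]
        rintro rfl
        exact hu hv
      · intro hcl
        exact absurd hv (hcl v u0 hu0 (by rw [hu1]; norm_num))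
      · intro _
        rw [hm1' v, if_pos rfl]
        norm_num
    · rw [h2, small_mod hw (Or.inl rfl)] at hm1'
      have hsame : ∀ u : Fin n, s'.m 1 (u : ℕ) = s.m 1 (u : ℕ) := by
        intro u
        rw [hm1' u]
        split_ifs with h3
        · rw [h3, hv]
        · rfl
      obtain ⟨χ, hχ1, hχ2⟩ := hs.ext
      refine ⟨⟨hr0, hm0, ?_, χ, hχ1, ?_⟩, ?_, fun _ => hsame, ?_⟩
      · intro u
        rw [hsame u]
        exact hs.val u
      · intro u hu
        rw [hsame u] at hu ⊢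
        exact hχ2 u hu
      · intro u _
        exact hsame u
      · rintro ⟨u, h3, h4⟩
        exact absurd (h1 u h3) h4
  · have h2 : x = s.m 1 (v : ℕ) := by rw [hx, colE_eval' G hs v hv]
    rw [h2, small_mod hw (hs.val v)] at hm1'
    have hsame : ∀ u : Fin n, s'.m 1 (u : ℕ) = s.m 1 (u : ℕ) := by
      intro u
      rw [hm1' u]
      split_ifs with h3
      · rw [h3]
      · rfl
    obtain ⟨χ, hχ1, hχ2⟩ := hs.ext
    refine ⟨⟨hr0, hm0, ?_, χ, hχ1, ?_⟩, ?_, fun _ => hsame, ?_⟩
    · intro u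
      rw [hsame u]
      exact hs.val u
    · intro u hu
      rw [hsame u] at hu ⊢
      exact hχ2 u hu
    · intro u _
      exact hsame u
    · intro _
      rw [hsame v]
      exact hv

/-- One pass over all vertices. -/
theorem pass {w l : ℕ} (hw : 2 ≤ w) {s : St} (hs : Good G l s) :
    let s' := (Prog.loop 32 (.reg 0) (.put 1 (.reg 32) colE)).run w s
    Good G l s' ∧ Ext n s s' ∧ (Closed G s → ∀ u : Fin n, s'.m 1 (u : ℕ) = s.m 1 (u : ℕ)) ∧
      (∀ v u : Fin n, G.Adj v u → s.m 1 (u : ℕ) ≠ 0 → s'.m 1 (v : ℕ) ≠ 0) := by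
  intro s'
  have key : ∀ k : ℕ, k ≤ n →
      let t := iter ((Prog.put 1 (.reg 32) colE).run w) 32 s k
      Good G l t ∧ Ext n s t ∧ (Closed G s → ∀ u : Fin n, t.m 1 (u : ℕ) = s.m 1 (u : ℕ)) ∧
      (∀ v u : Fin n, (v : ℕ) < k → G.Adj v u → s.m 1 (u : ℕ) ≠ 0 → t.m 1 (v : ℕ) ≠ 0) := by
    intro k
    induction k with
    | zero =>
      intro _
      exact ⟨hs, fun v _ => rfl, fun _ _ => rfl, fun v u h => absurd h (Nat.not_lt_zero _)⟩
    | succ k ih =>
      intro hk t'
      obtain ⟨h1, h2, h3, h4⟩ := ih (by omega)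
      obtain ⟨t, ht⟩ : ∃ t, t = iter ((Prog.put 1 (.reg 32) colE).run w) 32 s k := ⟨_, rfl⟩
      rw [← ht] at h1 h2 h3 h4
      have ht' : t' = (Prog.put 1 (.reg 32) colE).run w (t.setR 32 ((⟨k, hk⟩ : Fin n) : ℕ)) := by
        rw [ht]; rfl
      obtain ⟨g1, g2, g3, g4⟩ := step G hw h1 (⟨k, hk⟩ : Fin n)
      rw [← ht'] at g1 g2 g3 g4
      refine ⟨g1, h2.trans g2, ?_, ?_⟩
      · intro hcl u
        have h5 : Closed G t := by
          intro v u hvu hu
          rw [h3 hcl] at hu ⊢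
          exact hcl v u hvu hu
        rw [g3 h5, h3 hcl]
      · intro v u hv hvu hu
        by_cases h5 : (v : ℕ) = k
        · have h6 : v = ⟨k, hk⟩ := Fin.ext h5
          rw [h6]
          apply g4
          refine ⟨u, h6 ▸ hvu, ?_⟩
          rw [h2 u hu]
          exact hu
        · have h6 := h4 v u (by omega) hvu hu
          rw [g2 v h6]
          exact h6
  have hs' : s' = (iter ((Prog.put 1 (.reg 32) colE).run w) 32 s n).setR 32 (s.r 32) := by
    show (iter ((Prog.put 1 (.reg 32) colE).run w) 32 s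
      ((Expr.reg 0).eval s).toNat).setR 32 (s.r 32) = _
    have : ((Expr.reg 0).eval s).toNat = n := by
      show (s.r 0).toNat = n
      rw [hs.r0, Int.toNat_natCast]
    rw [this]
  obtain ⟨h1, h2, h3, h4⟩ := key n le_rfl
  rw [hs']
  exact ⟨h1.setR (by norm_num) _, h2, h3, fun v u => h4 v u v.2⟩

/-- The coloured vertices. -/
def col (n : ℕ) (s : St) : Finset (Fin n) := univ.filter fun v => s.m 1 (v : ℕ) ≠ 0

theorem Ext.col_sub {s s' : St} (h : Ext n s s') : col n s ⊆ col n s' := by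
  intro v hv
  simp only [col, mem_filter, mem_univ, true_and] at hv ⊢
  rw [h v hv]
  exact hv

/-- `n` passes. -/
theorem passes {w l : ℕ} (hw : 2 ≤ w) {s : St} (hs : Good G l s) (hne : (col n s).Nonempty) :
    let s' := (Prog.loop 31 (.reg 0) (.loop 32 (.reg 0) (.put 1 (.reg 32) colE))).run w s
    Good G l s' ∧ Ext n s s' ∧ Closed G s' := by
  intro s'
  have key : ∀ k : ℕ,
      let t := iter ((Prog.loop 32 (.reg 0) (.put 1 (.reg 32) colE)).run w) 31 s k
      Good G l t ∧ Ext n s t ∧ (Closed G t ∨ k + 1 ≤ (col n t).card) := by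
    intro k
    induction k with
    | zero =>
      exact ⟨hs, fun v _ => rfl, Or.inr (by
        have := hne.card_pos
        show 0 + 1 ≤ (col n s).card
        omega)⟩
    | succ k ih =>
      intro t'
      obtain ⟨h1, h2, h3⟩ := ih
      obtain ⟨t, ht⟩ :
        ∃ t, t = iter ((Prog.loop 32 (.reg 0) (.put 1 (.reg 32) colE)).run w) 31 s k := ⟨_, rfl⟩
      rw [← ht] at h1 h2 h3
      have ht' : t' = (Prog.loop 32 (.reg 0) (.put 1 (.reg 32) colE)).run w
          (t.setR 31 (k : ℤ)) := by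
        rw [ht]; rfl
      have h1' : Good G l (t.setR 31 (k : ℤ)) := h1.setR (by norm_num) _
      obtain ⟨g1, g2, g3, g4⟩ := pass G hw h1'
      rw [← ht'] at g1 g2 g3 g4
      have g2' : Ext n t t' := g2
      refine ⟨g1, h2.trans g2', ?_⟩
      by_cases hcl : Closed G t
      · left
        have g3' : ∀ u : Fin n, t'.m 1 (u : ℕ) = t.m 1 (u : ℕ) := g3 hcl
        intro v u hvu hu
        rw [g3'] at hu ⊢
        exact hcl v u hvu hu
      · right
        have h4 : k + 1 ≤ (col n t).card := h3.resolve_left hcl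
        have h5 : ∃ v u : Fin n, G.Adj v u ∧ t.m 1 (u : ℕ) ≠ 0 ∧ t.m 1 (v : ℕ) = 0 := by
          unfold Closed at hcl
          push Not at hcl
          exact hcl
        obtain ⟨v, u, h6, h7, h8⟩ := h5
        have h9 : col n t ⊂ col n t' := by
          refine ⟨g2'.col_sub, fun h => ?_⟩
          have h10 : v ∈ col n t' := by
            simp only [col, mem_filter, mem_univ, true_and]
            exact g4 v u h6 h7
          have h11 := h h10
          simp only [col, mem_filter, mem_univ, true_and] at h11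
          exact h11 h8
        have := Finset.card_lt_card h9
        omega
  have hs' : s' = (iter ((Prog.loop 32 (.reg 0) (.put 1 (.reg 32) colE)).run w) 31 s n).setR 31
      (s.r 31) := by
    show (iter ((Prog.loop 32 (.reg 0) (.put 1 (.reg 32) colE)).run w) 31 s
      ((Expr.reg 0).eval s).toNat).setR 31 (s.r 31) = _
    have : ((Expr.reg 0).eval s).toNat = n := by
      show (s.r 0).toNat = n
      rw [hs.r0, Int.toNat_natCast]
    rw [this]
  obtain ⟨h1, h2, h3⟩ := key n
  rw [hs']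
  refine ⟨h1.setR (by norm_num) _, h2, ?_⟩
  rcases h3 with h3 | h3
  · exact h3
  · exfalso
    have h4 := Finset.card_le_univ
      (col n (iter ((Prog.loop 32 (.reg 0) (.put 1 (.reg 32) colE)).run w) 31 s n))
    rw [Fintype.card_fin] at h4
    omega

/-- Colouring one vertex of a closed state. -/
theorem seed {w l : ℕ} (hw : 2 ≤ w) {s : St} (hs : Good G l s) (hcl : Closed G s) (v : Fin n) :
    let s' := (Prog.put 1 (.reg 30)
      (.cond (.arr 1 (.reg 30)) (.const 1) (.const 1) (.arr 1 (.reg 30)))).run w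
        (s.setR 30 (v : ℕ))
    Good G l s' ∧ Ext n s s' ∧ s'.m 1 (v : ℕ) ≠ 0 := by
  intro s'
  obtain ⟨x, hx⟩ : ∃ x : ℤ, x = if s.m 1 (v : ℕ) < 1 then 1 else s.m 1 (v : ℕ) := ⟨_, rfl⟩
  have hs'eq : s' = (s.setR 30 (v : ℕ)).setM 1 ((v : ℕ) : ℤ) (x % 2 ^ w) := by
    show (s.setR 30 (v : ℕ)).setM 1 ((Expr.reg 30).eval (s.setR 30 (v : ℕ)))
      ((Expr.cond (.arr 1 (.reg 30)) (.const 1) (.const 1) (.arr 1 (.reg 30))).eval
        (s.setR 30 (v : ℕ)) % 2 ^ w) = _
    rw [hx]
    simp only [Expr.eval, St.setR_r, St.setR_m, if_true]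
  have hm1' : ∀ u : Fin n, s'.m 1 (u : ℕ) = if u = v then x % 2 ^ w else s.m 1 (u : ℕ) := by
    intro u
    rw [hs'eq]
    simp only [St.setM_m, if_true, St.setR_m, Function.update_apply]
    by_cases h : u = v
    · rw [if_pos h, if_pos (by rw [h])]
    · rw [if_neg h, if_neg]
      intro h2
      exact h (Fin.ext (by exact_mod_cast h2))
  have hr0 : s'.r 0 = n := by
    rw [hs'eq, St.setM_r, St.setR_r, if_neg (by norm_num)]
    exact hs.r0
  have hm0 : s'.m 0 = (initSt n l G).m 0 := by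
    rw [hs'eq, St.setM_m, if_neg (by norm_num), St.setR_m]
    exact hs.m0
  obtain ⟨χ, hχ1, hχ2⟩ := hs.ext
  by_cases hv : s.m 1 (v : ℕ) = 0
  · have hx1 : x = 1 := by
      rw [hx, hv]
      norm_num
    rw [hx1, small_mod hw (Or.inr (Or.inl rfl))] at hm1'
    have hval : ∀ u : Fin n, s'.m 1 (u : ℕ) = 0 ∨ s'.m 1 (u : ℕ) = 1 ∨ s'.m 1 (u : ℕ) = 2 := by
      intro u
      rw [hm1' u]
      split_ifs
      · exact Or.inr (Or.inl rfl)
      · exact hs.val u
    have hext : Ext n s s' := by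
      intro u hu
      rw [hm1' u, if_neg]
      rintro rfl
      exact hu hv
    have hne : s'.m 1 (v : ℕ) ≠ 0 := by
      rw [hm1' v, if_pos rfl]
      norm_num
    by_cases hχ : χ v = true
    · refine ⟨⟨hr0, hm0, hval, χ, hχ1, ?_⟩, hext, hne⟩
      intro u hu
      rw [hm1' u] at hu ⊢
      by_cases h3 : u = v
      · rw [if_pos h3, h3, if_pos hχ]
      · rw [if_neg h3] at hu ⊢
        exact hχ2 u hu
    · -- flip the uncoloured vertices
      refine ⟨⟨hr0, hm0, hval, fun u => if s.m 1 (u : ℕ) = 0 then !(χ u) else χ u, ?_, ?_⟩,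
        hext, hne⟩
      · intro a b hab
        have h1 := hχ1 a b hab
        have h2 := hcl a b hab
        have h3 := hcl b a hab.symm
        by_cases ha : s.m 1 (a : ℕ) = 0
        · have hb : s.m 1 (b : ℕ) = 0 := by
            by_contra hb
            exact h2 hb ha
          simp only [ha, hb, if_true]
          intro h4
          apply h1
          have := congrArg not h4
          simpa using this
        · have hb : s.m 1 (b : ℕ) ≠ 0 := h3 ha
          simp only [ha, hb, if_false]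
          exact h1
      · intro u hu
        rw [hm1' u] at hu ⊢
        by_cases h3 : u = v
        · have h4 : χ v = false := by
            cases h5 : χ v
            · rfl
            · exact absurd h5 hχ
          simp only [h3, hv, if_true, h4, Bool.not_false]
        · rw [if_neg h3] at hu ⊢
          simp only [hu, if_false]
          exact hχ2 u hu
  · have hx1 : x = s.m 1 (v : ℕ) := by
      rw [hx, if_neg]
      rcases hs.val v with h | h | h
      · exact absurd h hv
      · omega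
      · omega
    rw [hx1, small_mod hw (hs.val v)] at hm1'
    have hsame : ∀ u : Fin n, s'.m 1 (u : ℕ) = s.m 1 (u : ℕ) := by
      intro u
      rw [hm1' u]
      split_ifs with h3
      · rw [h3]
      · rfl
    refine ⟨⟨hr0, hm0, ?_, χ, hχ1, ?_⟩, ?_, ?_⟩
    · intro u
      rw [hsame u]
      exact hs.val u
    · intro u hu
      rw [hsame u] at hu ⊢
      exact hχ2 u hu
    · intro u _
      exact hsame u
    · rw [hsame v]
      exact hv

end

theorem colorp : ColorPStatement := by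
  intro w n l G _ s hw hcolor hr0 hm0 hm1
  obtain ⟨C⟩ := hcolor
  have hgood : Good G l s := by
    refine ⟨hr0, hm0, fun v => Or.inl (hm1 _), fun v => decide (C v = 0), ?_, ?_⟩
    · intro v v' h
      have h1 := C.valid h
      intro h2
      apply h1
      have h3 : (C v = 0) ↔ (C v' = 0) := by
        have := congrArg (fun b : Bool => b = true) h2
        simpa using this
      have h4 := (C v).2
      have h5 := (C v').2
      rcases Nat.lt_or_ge (C v).1 1 with h6 | h6
      · have h7 : C v = 0 := Fin.ext (by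
          show (C v).1 = 0
          omega)
        rw [h7, h3.1 h7]
      · have h7 : C v ≠ 0 := fun h => by
          rw [h] at h6
          exact absurd h6 (by decide)
        have h8 : C v' ≠ 0 := fun h => h7 (h3.2 h)
        have h9 : (C v').1 ≠ 0 := fun h => h8 (Fin.ext h)
        apply Fin.ext
        omega
    · intro v hv
      exact absurd (hm1 _) hv
  have key : ∀ k : ℕ, k ≤ n →
      let t := iter ((seqs [
        .put 1 (.reg 30) (.cond (.arr 1 (.reg 30)) (.const 1) (.const 1) (.arr 1 (.reg 30))),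
        .loop 31 (.reg 0) (.loop 32 (.reg 0) (.put 1 (.reg 32) colE))]).run w) 30 s k
      Good G l t ∧ Closed G t ∧ ∀ v : Fin n, (v : ℕ) < k → t.m 1 (v : ℕ) ≠ 0 := by
    intro k
    induction k with
    | zero =>
      intro _
      exact ⟨hgood, fun v u _ hu => absurd (hm1 _) hu, fun v h => absurd h (Nat.not_lt_zero _)⟩
    | succ k ih =>
      intro hk t'
      obtain ⟨h1, h2, h3⟩ := ih (by omega)
      obtain ⟨t, ht⟩ : ∃ t, t = iter ((seqs [
        .put 1 (.reg 30) (.cond (.arr 1 (.reg 30)) (.const 1) (.const 1) (.arr 1 (.reg 30))),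
        .loop 31 (.reg 0) (.loop 32 (.reg 0) (.put 1 (.reg 32) colE))]).run w) 30 s k := ⟨_, rfl⟩
      rw [← ht] at h1 h2 h3
      obtain ⟨g1, g2, g3⟩ := seed G hw h1 h2 (⟨k, hk⟩ : Fin n)
      obtain ⟨t1, ht1⟩ : ∃ t1, t1 = (Prog.put 1 (.reg 30)
        (.cond (.arr 1 (.reg 30)) (.const 1) (.const 1) (.arr 1 (.reg 30)))).run w
        (t.setR 30 (((⟨k, hk⟩ : Fin n) : ℕ) : ℤ)) := ⟨_, rfl⟩
      rw [← ht1] at g1 g2 g3
      have hne : (col n t1).Nonempty := ⟨⟨k, hk⟩, by
        simp only [col, mem_filter, mem_univ, true_and]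
        exact g3⟩
      obtain ⟨f1, f2, f3⟩ := passes G hw g1 hne
      have ht' : t' = (Prog.loop 31 (.reg 0)
          (.loop 32 (.reg 0) (.put 1 (.reg 32) colE))).run w t1 := by
        rw [ht1, ht]; rfl
      rw [← ht'] at f1 f2 f3
      refine ⟨f1, f3, ?_⟩
      intro v hv
      by_cases h5 : (v : ℕ) = k
      · have h6 : v = ⟨k, hk⟩ := Fin.ext h5
        rw [h6, f2 _ g3]
        exact g3
      · have h6 := h3 v (by omega)
        have h7 : t1.m 1 (v : ℕ) ≠ 0 := by
          rw [g2 v h6]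
          exact h6
        rw [f2 v h7]
        exact h7
  obtain ⟨h1, _, h3⟩ := key n le_rfl
  have hrun : (colorP.run w s) = (iter ((seqs [
        .put 1 (.reg 30) (.cond (.arr 1 (.reg 30)) (.const 1) (.const 1) (.arr 1 (.reg 30))),
        .loop 31 (.reg 0) (.loop 32 (.reg 0) (.put 1 (.reg 32) colE))]).run w) 30 s n).setR 30
          (s.r 30) := by
    show (iter ((seqs [
        .put 1 (.reg 30) (.cond (.arr 1 (.reg 30)) (.const 1) (.const 1) (.arr 1 (.reg 30))),
        .loop 31 (.reg 0) (.loop 32 (.reg 0) (.put 1 (.reg 32) colE))]).run w) 30 s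
        ((Expr.reg 0).eval s).toNat).setR 30 (s.r 30) = _
    have : ((Expr.reg 0).eval s).toNat = n := by
      show (s.r 0).toNat = n
      rw [hr0, Int.toNat_natCast]
    rw [this]
  rw [hrun]
  simp only [St.setR_m]
  obtain ⟨χ, hχ1, hχ2⟩ := h1.ext
  refine ⟨?_, ?_⟩
  · intro v
    exact (h1.val v).resolve_left (h3 v v.2)
  · intro v v' hvv'
    rw [hχ2 v (h3 v v.2), hχ2 v' (h3 v' v'.2)]
    have h4 := hχ1 v v' hvv'
    cases h5 : χ v <;> cases h6 : χ v' <;> simp_all

end Pool.Agent.Lib.MP_b2ebfc_lc.H78
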