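import Pool.Agent.Lib.MP_b2ebfc_lc.H35.App2P

/-!
# Module TIME2: the running time of approach II
-/

set_option autoImplicit false

namespace Pool.Agent.Lib.MP_b2ebfc_lc.H78

open Finset Pool.Agent.Lib.MP_b2ebfc_lc Pool.Agent.Lib.MP_b2ebfc_lc.H35

/-- The time of a loop whose body keeps the registers of `L'`. -/
theorem loop_time (w i j : ℕ) (p : Prog) (L' : List ℕ) (hi : i ∉ L')
    (hw : ∀ l ∈ L', p.wrR l = false) (T : ℕ) (s : St)
    (hT : ∀ t : St, (∀ l ∈ L', t.r l = s.r l) → p.time w t ≤ T) :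
    (Prog.loop i (.reg j) p).time w s ≤ (s.r j).toNat * (T + 1) + 2 := by
  have key : ∀ k : ℕ, ∀ l ∈ L', (iter (p.run w) i s k).r l = s.r l := by
    intro k l hl
    refine iter_r (fun s => Prog.run_r w p l (hw l hl) s) ?_ s k
    rintro rfl
    exact hi hl
  have h1 : ∑ k ∈ range (s.r j).toNat, (p.time w ((iter (p.run w) i s k).setR i k) + 1) ≤
      (s.r j).toNat * (T + 1) := by
    calc ∑ k ∈ range (s.r j).toNat, (p.time w ((iter (p.run w) i s k).setR i k) + 1)
        ≤ ∑ _k ∈ range (s.r j).toNat, (T + 1) := by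
          refine Finset.sum_le_sum fun k _ => Nat.add_le_add_right (hT _ fun l hl => ?_) 1
          rw [St.setR_r, if_neg (by rintro rfl; exact hi hl)]
          exact key k l hl
      _ = (s.r j).toNat * (T + 1) := by simp
  have h2 : (Prog.loop i (.reg j) p).time w s = 1 +
      (∑ k ∈ range (s.r j).toNat, (p.time w ((iter (p.run w) i s k).setR i k) + 1)) + 1 := rfl
  rw [h2]
  omega

/-- The time of a loop whose body is bounded by the registers of `L`. -/
theorem loop_time' (w i j : ℕ) (p : Prog) (L : List ℕ) (hi : i ∉ L) (hok : p.ok L = true) (B : ℕ)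
    (s : St) (hs : ∀ l ∈ L, s.r l ≤ B) :
    (Prog.loop i (.reg j) p).time w s ≤ (s.r j).toNat * (p.tb B + 1) + 2 := by
  refine loop_time w i j p L hi (Prog.ok_wrR L p hok) (p.tb B) s fun t ht => ?_
  refine Prog.time_le w L B p hok t fun l hl => ?_
  rw [ht l hl]
  exact hs l hl

/-- The pieces. -/
def q1 : Prog := .set 22 popE
@[inherit_doc q1]
def q2 : Prog := .put 16 (.reg 30) (.cond (.reg 30) (.const 1) (.const 1) (.const 0))
@[inherit_doc q1]
def q3 : Prog := .put 17 (.reg 30) permE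
@[inherit_doc q1]
def q4 : Prog := .put 16 (.reg 30) (.arr 17 (.reg 30))
@[inherit_doc q1]
def q5 : Prog := .ite (.const 0) (bitE (.reg 20) (.reg 29)) .skip .skip
@[inherit_doc q1]
def allP : Prog := seqs [q1, q2, q3, q4, q5, body2]

theorem allP_tb (B : ℕ) : q1.tb B + q2.tb B + q3.tb B + q4.tb B + q5.tb B + body2.tb B ≤
    allP.tb B := by
  have h : allP.tb B = q1.tb B + (q2.tb B + (q3.tb B + (q4.tb B + (q5.tb B +
    (body2.tb B + 1 + 1) + 1) + 1) + 1) + 1) + 1 := rfl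
  omega

/-- The body of the middle loop of `permP`. -/
def bodyP : Prog := .ite (.const 0) (bitE (.reg 20) (.reg 29))
    (seqs [tab 30 11 17 permE, tab 30 11 16 (.arr 17 (.reg 30))]) .skip

theorem bodyP_time (w n a b : ℕ) (s : St) (h3 : s.r 3 = a) (h4 : s.r 4 = b)
    (h11 : s.r 11 = 2 ^ b) (B : ℕ) (hB : n ≤ B) (han : a ≤ n) (hbn : b ≤ n) :
    bodyP.time w s ≤ q5.tb B + 2 ^ b * (q3.tb B + 1) + 2 ^ b * (q4.tb B + 1) + 10 := by
  have hL : ∀ l ∈ [3, 4], s.r l ≤ B := by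
    intro l hl
    simp only [List.mem_cons, List.not_mem_nil, or_false] at hl
    rcases hl with rfl | rfl
    · rw [h3]; exact_mod_cast (by omega : a ≤ B)
    · rw [h4]; exact_mod_cast (by omega : b ≤ B)
  have hpow : (2 ^ b : ℤ).toNat = 2 ^ b := by
    have : (2 ^ b : ℤ) = ((2 ^ b : ℕ) : ℤ) := by push_cast; rfl
    rw [this, Int.toNat_natCast]
  have e1 : (tab 30 11 17 permE).time w s ≤ 2 ^ b * (q3.tb B + 1) + 2 := by
    have := loop_time' w 30 11 q3 [3, 4] (by decide) rfl B s hL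
    rw [h11, hpow] at this
    exact this
  obtain ⟨t, ht⟩ : ∃ t, t = (tab 30 11 17 permE).run w s := ⟨_, rfl⟩
  have htr : ∀ j, t.r j = s.r j := fun j => by rw [ht]; exact tab_r w 30 11 17 permE s j
  have e2 : (tab 30 11 16 (.arr 17 (.reg 30))).time w t ≤ 2 ^ b * (q4.tb B + 1) + 2 := by
    have := loop_time' w 30 11 q4 [3, 4] (by decide) rfl B t (fun l hl => by
      rw [htr]; exact hL l hl)
    rw [htr, h11, hpow] at this
    exact this
  have e3 : q5.time w s ≤ q5.tb B := Prog.time_le w [3, 4] B q5 rfl s hL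
  have e4 : q5.time w s = 1 + (bitE (.reg 20) (.reg 29)).cost s +
      (if (Expr.const 0).eval s < (bitE (.reg 20) (.reg 29)).eval s then 1 else 1) + 1 := rfl
  have e4' : 1 + (bitE (.reg 20) (.reg 29)).cost s + 1 ≤ q5.tb B := by
    rw [ite_self] at e4
    omega
  have e5 : bodyP.time w s = 1 + (bitE (.reg 20) (.reg 29)).cost s +
      (if (Expr.const 0).eval s < (bitE (.reg 20) (.reg 29)).eval s then
        ((tab 30 11 17 permE).time w s +
          ((tab 30 11 16 (.arr 17 (.reg 30))).time w t + 1 + 1) + 1) else 1) + 1 := by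
    rw [ht]; rfl
  rw [e5]
  split_ifs <;> omega

theorem permP_time (w n a b : ℕ) (s : St) (h3 : s.r 3 = a) (h4 : s.r 4 = b)
    (h11 : s.r 11 = 2 ^ b) (B : ℕ) (hB : n ≤ B) (han : a ≤ n) (hbn : b ≤ n) :
    permP.time w s ≤ 2 ^ b * ((n + 1) * (q2.tb B + q3.tb B + q4.tb B + q5.tb B + 40)) := by
  have hL : ∀ l ∈ [3, 4], s.r l ≤ B := by
    intro l hl
    simp only [List.mem_cons, List.not_mem_nil, or_false] at hl
    rcases hl with rfl | rfl
    · rw [h3]; exact_mod_cast (by omega : a ≤ B)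
    · rw [h4]; exact_mod_cast (by omega : b ≤ B)
  have hpow : (2 ^ b : ℤ).toNat = 2 ^ b := by
    have : (2 ^ b : ℤ) = ((2 ^ b : ℕ) : ℤ) := by push_cast; rfl
    rw [this, Int.toNat_natCast]
  have e1 : (tab 30 11 16 (.cond (.reg 30) (.const 1) (.const 1) (.const 0))).time w s ≤
      2 ^ b * (q2.tb B + 1) + 2 := by
    have := loop_time' w 30 11 q2 [3, 4] (by decide) rfl B s hL
    rw [h11, hpow] at this
    exact this
  obtain ⟨t, ht⟩ : ∃ t, t = (tab 30 11 16
    (.cond (.reg 30) (.const 1) (.const 1) (.const 0))).run w s := ⟨_, rfl⟩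
  have htr : ∀ j, t.r j = s.r j := fun j => by rw [ht]; exact tab_r w 30 11 16 _ s j
  have e2 : (Prog.loop 29 (.reg 3) bodyP).time w t ≤
      a * (q5.tb B + 2 ^ b * (q3.tb B + 1) + 2 ^ b * (q4.tb B + 1) + 10 + 1) + 2 := by
    have := loop_time w 29 3 bodyP [3, 4, 11] (by decide) (by decide)
      (q5.tb B + 2 ^ b * (q3.tb B + 1) + 2 ^ b * (q4.tb B + 1) + 10) t (fun t' ht' => by
        refine bodyP_time w n a b t' ?_ ?_ ?_ B hB han hbn
        · rw [ht' 3 (by decide), htr, h3]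
        · rw [ht' 4 (by decide), htr, h4]
        · rw [ht' 11 (by decide), htr, h11])
    rw [htr, h3, Int.toNat_natCast] at this
    exact this
  have e3 : permP.time w s =
      (tab 30 11 16 (.cond (.reg 30) (.const 1) (.const 1) (.const 0))).time w s +
        ((Prog.loop 29 (.reg 3) bodyP).time w t + 1 + 1) + 1 := by
    rw [ht]; rfl
  have hp : 1 ≤ 2 ^ b := Nat.one_le_two_pow
  rw [e3]
  obtain ⟨x, hx⟩ : ∃ x : ℕ, x = 2 ^ b := ⟨_, rfl⟩
  rw [← hx] at e1 e2 hp ⊢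
  have e4 : a * (q5.tb B + x * (q3.tb B + 1) + x * (q4.tb B + 1) + 10 + 1) ≤
      n * (x * (q5.tb B + q3.tb B + q4.tb B + 13)) := by
    apply Nat.mul_le_mul han
    nlinarith [Nat.zero_le (q5.tb B)]
  have e5 : 2 ^ b * 0 = 0 := by simp
  nlinarith [Nat.zero_le (q2.tb B), Nat.zero_le (q3.tb B), Nat.zero_le (q4.tb B),
    Nat.zero_le (q5.tb B), Nat.zero_le (n * x), Nat.zero_le (n * x * q2.tb B),
    Nat.zero_le (x * q5.tb B), Nat.zero_le (x * q3.tb B), Nat.zero_le (x * q4.tb B)]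

theorem outer2_time (w n a b u₀ k : ℕ) (M : Fin a → Fin b → ℤ) (s : St) (hw : w = wordLen n)
    (h : Ctx n a b M s) (h6 : s.r 6 = u₀) (h5 : s.r 5 = k) (Z : ℕ) (h20 : s.r 20 = Z) :
    outer2.time w s ≤ ((n + 1) * (allP.tb ((n + 1) ^ 2) + 80)) *
      (1 + if u₀ < (maskSet a Z).card ∧ (maskSet a Z).card ≤ k then 2 ^ b else 0) := by
  obtain ⟨B, hBdef⟩ : ∃ B, B = (n + 1) ^ 2 := ⟨_, rfl⟩
  rw [← hBdef]
  have han : a ≤ n := by have := h.hab; omega
  have hbn : b ≤ n := by have := h.hab; omega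
  have hB : n ≤ B := by rw [hBdef]; nlinarith
  have hBb : b * b ≤ B := by rw [hBdef]; nlinarith
  have hL : ∀ l ∈ [3, 4, 13, 15], s.r l ≤ B := by
    intro l hl
    simp only [List.mem_cons, List.not_mem_nil, or_false] at hl
    rcases hl with rfl | rfl | rfl | rfl
    · rw [h.ha]; exact_mod_cast (by omega : a ≤ B)
    · rw [h.hb]; exact_mod_cast (by omega : b ≤ B)
    · rw [h.h13]
      have : (b : ℤ) ≤ B := by exact_mod_cast (by omega : b ≤ B)
      omega
    · rw [h.h15]; exact_mod_cast hBb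
  obtain ⟨t1, ht1⟩ : ∃ t1, t1 = (Prog.set 22 popE).run w s := ⟨_, rfl⟩
  have r1 : ∀ j, j ≠ 22 → t1.r j = s.r j := fun j hj => by
    rw [ht1]; exact Prog.run_r w _ j (by simpa [Prog.wrR] using hj) s
  have hcard : (maskSet a Z).card ≤ n := by
    refine (Finset.card_le_univ _).trans ?_
    simp only [Fintype.card_fin]; omega
  have hn : 0 < n := by have := h.hab; have := h.hb1; omega
  have hcardw : (((maskSet a Z).card : ℕ) : ℤ) % 2 ^ w = (maskSet a Z).card := by
    rw [hw]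
    refine word_mod (n := n) _ (by positivity) ?_
    have h1 : (((maskSet a Z).card : ℕ) : ℤ) ≤ n := by exact_mod_cast hcard
    have h2 : (1 : ℤ) ≤ n := by exact_mod_cast hn
    nlinarith
  have h22 : t1.r 22 = (maskSet a Z).card := by
    rw [ht1]
    simp only [Prog.run, St.setR_r, if_true]
    rw [popE_eval h Z h20, hcardw]
  have h6' : t1.r 6 = u₀ := by rw [r1 6 (by norm_num), h6]
  have h5' : t1.r 5 = k := by rw [r1 5 (by norm_num), h5]
  have e1 : (Prog.set 22 popE).time w s ≤ q1.tb B :=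
    Prog.time_le w [3, 4, 13, 15] B q1 rfl s hL
  obtain ⟨t2, ht2⟩ : ∃ t2, t2 = permP.run w t1 := ⟨_, rfl⟩
  have r2 : ∀ j, t2.r j = t1.r j := fun j => by
    rw [ht2]; exact Prog.run_r w _ j (permP_wrR j) t1
  have hcond : (Expr.reg 6).eval t1 < (Expr.reg 22).eval t1 ↔ u₀ < (maskSet a Z).card := by
    simp only [Expr.eval, h22, h6']
    omega
  have hcond2 : (Expr.reg 22).eval t1 < (Expr.add (.reg 5) (.const 1)).eval t1 ↔
      (maskSet a Z).card ≤ k := by
    simp only [Expr.eval, h22, h5']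
    omega
  have e0 : outer2.time w s = (Prog.set 22 popE).time w s + ((1 + 1 +
      (if (Expr.reg 6).eval t1 < (Expr.reg 22).eval t1 then (1 + 3 +
        (if (Expr.reg 22).eval t1 < (Expr.add (.reg 5) (.const 1)).eval t1 then
          (permP.time w t1 + ((Prog.loop 21 (.reg 11) body2).time w t2 + 1 + 1) + 1) else 1) + 1)
        else 1) + 1) + 1 + 1) + 1 := by
    rw [ht2, ht1]; rfl
  have e2 : permP.time w t1 ≤
      2 ^ b * ((n + 1) * (q2.tb B + q3.tb B + q4.tb B + q5.tb B + 40)) := by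
    refine permP_time w n a b t1 ?_ ?_ ?_ B hB han hbn
    · rw [r1 3 (by norm_num), h.ha]
    · rw [r1 4 (by norm_num), h.hb]
    · rw [r1 11 (by norm_num), h.h11]
  have hpow : (2 ^ b : ℤ).toNat = 2 ^ b := by
    have : (2 ^ b : ℤ) = ((2 ^ b : ℕ) : ℤ) := by push_cast; rfl
    rw [this, Int.toNat_natCast]
  have e3 : (Prog.loop 21 (.reg 11) body2).time w t2 ≤ 2 ^ b * (body2.tb B + 1) + 2 := by
    have := loop_time' w 21 11 body2 [3, 4, 13, 15] (by decide) rfl B t2 (fun l hl => by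
      rw [r2, r1 l (by rintro rfl; revert hl; decide)]
      exact hL l hl)
    rw [r2, r1 11 (by norm_num), h.h11, hpow] at this
    exact this
  have e4 := allP_tb B
  have hp : 1 ≤ 2 ^ b := Nat.one_le_two_pow
  rw [e0]
  obtain ⟨x, hx⟩ : ∃ x : ℕ, x = 2 ^ b := ⟨_, rfl⟩
  rw [← hx] at e2 e3 hp ⊢
  obtain ⟨A, hA⟩ : ∃ A, A = allP.tb B := ⟨_, rfl⟩
  rw [← hA] at e4 ⊢
  by_cases hc : u₀ < (maskSet a Z).card ∧ (maskSet a Z).card ≤ k
  · rw [if_pos (hcond.2 hc.1), if_pos (hcond2.2 hc.2), if_pos hc]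
    have e5 : x * ((n + 1) * (q2.tb B + q3.tb B + q4.tb B + q5.tb B + 40)) +
        (x * (body2.tb B + 1) + 2) + 20 ≤ (n + 1) * (A + 80) * x := by
      have e6 : x * (body2.tb B + 1) ≤ x * ((n + 1) * (body2.tb B + 1)) :=
        Nat.mul_le_mul_left x (Nat.le_mul_of_pos_left _ (by omega))
      have e7 : 22 ≤ x * ((n + 1) * 22) := by nlinarith [Nat.zero_le (n * x)]
      have e8 : x * ((n + 1) * (q2.tb B + q3.tb B + q4.tb B + q5.tb B + 40)) +
          x * ((n + 1) * (body2.tb B + 1)) + x * ((n + 1) * 22) =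
          x * ((n + 1) * (q2.tb B + q3.tb B + q4.tb B + q5.tb B + body2.tb B + 63)) := by ring
      have e9 : x * ((n + 1) * (q2.tb B + q3.tb B + q4.tb B + q5.tb B + body2.tb B + 63)) ≤
          x * ((n + 1) * (A + 80)) :=
        Nat.mul_le_mul_left x (Nat.mul_le_mul_left _ (by omega))
      have e10 : x * ((n + 1) * (A + 80)) = (n + 1) * (A + 80) * x := by ring
      omega
    have e11 : (Prog.set 22 popE).time w s ≤ (n + 1) * (A + 80) := by
      have : A + 80 ≤ (n + 1) * (A + 80) := Nat.le_mul_of_pos_left _ (by omega)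
      omega
    have e12 : (n + 1) * (A + 80) * (1 + x) = (n + 1) * (A + 80) + (n + 1) * (A + 80) * x := by
      ring
    omega
  · have e11 : (Prog.set 22 popE).time w s + 20 ≤ (n + 1) * (A + 80) := by
      have : A + 80 ≤ (n + 1) * (A + 80) := Nat.le_mul_of_pos_left _ (by omega)
      omega
    rw [if_neg hc, Nat.add_zero, Nat.mul_one]
    by_cases h1 : u₀ < (maskSet a Z).card
    · rw [if_pos (hcond.2 h1), if_neg (fun h2 => hc ⟨h1, hcond2.1 h2⟩)]
      omega
    · rw [if_neg (fun h2 => h1 (hcond.1 h2))]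
      omega

/-- The number of masks with more than `u₀` bits. -/
theorem count_masks (hMask : MaskStatement) (a u₀ k : ℕ) :
    ∑ Z ∈ range (2 ^ a), (if u₀ < (maskSet a Z).card ∧ (maskSet a Z).card ≤ k then 1 else 0) ≤
      ∑ r ∈ Ioc u₀ a, a.choose r := by
  have h1 := (hMask a).1 (fun A : Finset (Fin a) => if u₀ < A.card ∧ A.card ≤ k then (1 : ℤ) else 0)
  have h2 : ((∑ Z ∈ range (2 ^ a),
      (if u₀ < (maskSet a Z).card ∧ (maskSet a Z).card ≤ k then 1 else 0) : ℕ) : ℤ) =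
      ((∑ A : Finset (Fin a), (if u₀ < A.card ∧ A.card ≤ k then 1 else 0) : ℕ) : ℤ) := by
    push_cast
    exact h1
  have h3 : ∑ Z ∈ range (2 ^ a),
      (if u₀ < (maskSet a Z).card ∧ (maskSet a Z).card ≤ k then 1 else 0) =
      ∑ A : Finset (Fin a), (if u₀ < A.card ∧ A.card ≤ k then 1 else 0) := by exact_mod_cast h2
  rw [h3]
  have h4 : ∑ A : Finset (Fin a), (if u₀ < A.card ∧ A.card ≤ k then 1 else 0) ≤
      ∑ A : Finset (Fin a), (if u₀ < A.card then 1 else 0) := by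
    apply Finset.sum_le_sum
    intro A _
    by_cases h5 : u₀ < A.card
    · rw [if_pos h5]
      split_ifs <;> omega
    · rw [if_neg h5, if_neg (fun h => h5 h.1)]
  refine h4.trans (le_of_eq ?_)
  have h5 := Finset.sum_powerset_apply_card (x := (univ : Finset (Fin a)))
    (fun m => if u₀ < m then 1 else 0)
  rw [Finset.powerset_univ, Finset.card_univ, Fintype.card_fin] at h5
  rw [h5]
  have h6 : Ioc u₀ a = (range (a + 1)).filter (fun r => u₀ < r) := by
    ext r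
    simp only [Finset.mem_Ioc, Finset.mem_filter, Finset.mem_range]
    omega
  rw [h6, Finset.sum_filter]
  apply Finset.sum_congr rfl
  intro r _
  split_ifs <;> simp

theorem poly_bound (n : ℕ) : (n + 1) * (allP.tb ((n + 1) ^ 2) + 80) + 3 ≤
    (allP.sz * 2 ^ allP.dg + 83) * (n + 1) ^ (2 * allP.dg + 1) := by
  have h1 := Prog.tb_le ((n + 1) ^ 2) allP
  obtain ⟨g, hg⟩ : ∃ g, g = allP.dg := ⟨_, rfl⟩
  obtain ⟨z, hz⟩ : ∃ z, z = allP.sz := ⟨_, rfl⟩
  obtain ⟨X, hX⟩ : ∃ X, X = allP.tb ((n + 1) ^ 2) := ⟨_, rfl⟩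
  rw [← hg, ← hz, ← hX] at h1
  rw [← hg, ← hz, ← hX]
  have h2 : (n + 1) ^ 2 + 1 ≤ 2 * (n + 1) ^ 2 := by
    have := Nat.one_le_pow 2 (n + 1) (by omega)
    omega
  have h3 : ((n + 1) ^ 2 + 1) ^ g ≤ (2 * (n + 1) ^ 2) ^ g := Nat.pow_le_pow_left h2 g
  have h4 : (2 * (n + 1) ^ 2) ^ g = 2 ^ g * (n + 1) ^ (2 * g) := by
    rw [Nat.mul_pow, ← Nat.pow_mul]
  rw [h4] at h3
  have h5 : 1 ≤ (n + 1) ^ (2 * g) := Nat.one_le_pow _ _ (by omega)
  obtain ⟨y, hy⟩ : ∃ y, y = (n + 1) ^ (2 * g) := ⟨_, rfl⟩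
  rw [← hy] at h3 h5
  rw [Nat.pow_succ, ← hy]
  have h6 : X ≤ z * (2 ^ g * y) := h1.trans (Nat.mul_le_mul_left z h3)
  have h7 : (n + 1) * (X + 83) ≤ (n + 1) * (z * (2 ^ g * y) + 83 * y) :=
    Nat.mul_le_mul_left _ (by omega)
  have h8 : (n + 1) * (z * (2 ^ g * y) + 83 * y) = (z * 2 ^ g + 83) * (y * (n + 1)) := by ring
  have h9 : (n + 1) * (X + 80) + 3 ≤ (n + 1) * (X + 83) := by nlinarith
  omega

theorem time2 (hMask : MaskStatement) : Time2Statement := by
  refine ⟨allP.sz * 2 ^ allP.dg + 83, 2 * allP.dg + 1, ?_⟩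
  intro w n a b u₀ k M s hw hctx h6 h5 hk
  obtain ⟨Q, hQ⟩ : ∃ Q, Q = (n + 1) * (allP.tb ((n + 1) ^ 2) + 80) := ⟨_, rfl⟩
  have hpow : (2 ^ a : ℤ).toNat = 2 ^ a := by
    have : (2 ^ a : ℤ) = ((2 ^ a : ℕ) : ℤ) := by push_cast; rfl
    rw [this, Int.toNat_natCast]
  have hwr : ∀ j ∈ [3, 4, 7, 12, 10, 11, 13, 15, 6, 5], outer2.wrR j = false := by decide
  have hwa : ∀ j ∈ [3, 4, 5], outer2.wrA j = false := by decide
  have hterm : ∀ Z : ℕ, outer2.time w ((iter (outer2.run w) 20 s Z).setR 20 Z) ≤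
      Q * (1 + if u₀ < (maskSet a Z).card ∧ (maskSet a Z).card ≤ k then 2 ^ b else 0) := by
    intro Z
    have hr : ∀ j ∈ [3, 4, 7, 12, 10, 11, 13, 15, 6, 5],
        ((iter (outer2.run w) 20 s Z).setR 20 Z).r j = s.r j := by
      intro j hj
      rw [St.setR_r, if_neg (by rintro rfl; revert hj; decide)]
      exact iter_r (fun s => Prog.run_r w outer2 j (hwr j hj) s)
        (by rintro rfl; revert hj; decide) s Z
    have hm : ∀ j ∈ [3, 4, 5], ((iter (outer2.run w) 20 s Z).setR 20 Z).m j = s.m j := by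
      intro j hj
      rw [St.setR_m]
      exact iter_m (fun s => Prog.run_m w outer2 j (hwa j hj) s) s Z
    have hc : Ctx n a b M ((iter (outer2.run w) 20 s Z).setR 20 Z) :=
      ctx_run hctx (fun j hj => hr j (by
        simp only [List.mem_cons, List.not_mem_nil, or_false] at hj ⊢
        omega)) hm
    rw [hQ]
    refine outer2_time w n a b u₀ k M _ hw hc ?_ ?_ Z ?_
    · rw [hr 6 (by decide), h6]
    · rw [hr 5 (by decide), h5]
    · rw [St.setR_r, if_pos rfl]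
  have htime : app2P.time w s = 1 + (∑ Z ∈ range (2 ^ a),
      (outer2.time w ((iter (outer2.run w) 20 s Z).setR 20 Z) + 1)) + 1 := by
    have h1 : app2P.time w s = 1 + (∑ Z ∈ range (s.r 10).toNat,
      (outer2.time w ((iter (outer2.run w) 20 s Z).setR 20 Z) + 1)) + 1 := rfl
    rw [h1, hctx.h10, hpow]
  have hsum : ∑ Z ∈ range (2 ^ a),
      (outer2.time w ((iter (outer2.run w) 20 s Z).setR 20 Z) + 1) ≤
      (Q + 1) * (2 ^ a + 2 ^ b * ∑ r ∈ Ioc u₀ a, a.choose r) := by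
    calc ∑ Z ∈ range (2 ^ a), (outer2.time w ((iter (outer2.run w) 20 s Z).setR 20 Z) + 1)
        ≤ ∑ Z ∈ range (2 ^ a), (Q + 1) * (1 + 2 ^ b *
            (if u₀ < (maskSet a Z).card ∧ (maskSet a Z).card ≤ k then 1 else 0)) := by
          apply Finset.sum_le_sum
          intro Z _
          have h1 := hterm Z
          obtain ⟨x, hx⟩ : ∃ x : ℕ, x = 2 ^ b := ⟨_, rfl⟩
          rw [← hx] at h1 ⊢
          split_ifs with hc
          · rw [if_pos hc] at h1
            have : (Q + 1) * (1 + x * 1) = Q * (1 + x) + (1 + x) := by ring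
            omega
          · rw [if_neg hc] at h1
            omega
      _ = (Q + 1) * (2 ^ a + 2 ^ b * ∑ Z ∈ range (2 ^ a),
            (if u₀ < (maskSet a Z).card ∧ (maskSet a Z).card ≤ k then 1 else 0)) := by
          rw [← Finset.mul_sum, Finset.sum_add_distrib, ← Finset.mul_sum]
          simp only [Finset.sum_const, Finset.card_range, smul_eq_mul, mul_one]
      _ ≤ _ := by
          apply Nat.mul_le_mul_left
          apply Nat.add_le_add_left
          exact Nat.mul_le_mul_left _ (count_masks hMask a u₀ k)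
  have hfin : app2P.time w s ≤ (allP.sz * 2 ^ allP.dg + 83) * (n + 1) ^ (2 * allP.dg + 1) *
      (2 ^ a + 2 ^ b * ∑ r ∈ Ioc u₀ a, a.choose r) := by
    have h1 := poly_bound n
    rw [← hQ] at h1
    have h2 : 1 ≤ 2 ^ a := Nat.one_le_two_pow
    obtain ⟨Y, hY⟩ : ∃ Y, Y = 2 ^ a + 2 ^ b * ∑ r ∈ Ioc u₀ a, a.choose r := ⟨_, rfl⟩
    rw [← hY] at hsum ⊢
    have h3 : 1 ≤ Y := by omega
    have h4 : (Q + 3) * Y ≤ (allP.sz * 2 ^ allP.dg + 83) * (n + 1) ^ (2 * allP.dg + 1) * Y :=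
      Nat.mul_le_mul_right _ h1
    have h5 : (Q + 3) * Y = (Q + 1) * Y + 2 * Y := by ring
    rw [htime]
    omega
  have h1 : (app2P.time w s : ℝ) ≤ (((allP.sz * 2 ^ allP.dg + 83) * (n + 1) ^ (2 * allP.dg + 1) *
      (2 ^ a + 2 ^ b * ∑ r ∈ Ioc u₀ a, a.choose r) : ℕ) : ℝ) := by exact_mod_cast hfin
  refine h1.trans (le_of_eq ?_)
  push_cast
  ring

end Pool.Agent.Lib.MP_b2ebfc_lc.H78
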